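import Pool.Agent.W2helper59.LN.Stm

set_option autoImplicit false

namespace Pool.Agent.W2helper53.LN.P2

open Set Pool.Agent.W2helper59.LN

theorem solOn_mono {E : Type*} [NormedAddCommGroup E] [NormedSpace ℝ E]
    {F : ℝ → E → E} {t0 t1 t2 : ℝ} {v q : ℝ → E} (h : SolOn F t0 t1 v q) (h12 : t2 ≤ t1) :
    SolOn F t0 t2 v q where
  cv := h.cv.mono (Icc_subset_Icc le_rfl h12)
  cq := h.cq.mono (Icc_subset_Icc le_rfl h12)
  dv t ht := h.dv t ⟨ht.1, lt_of_lt_of_le ht.2 h12⟩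
  dq t ht := h.dq t ⟨ht.1, lt_of_lt_of_le ht.2 h12⟩

theorem solOn_congr {E : Type*} [NormedAddCommGroup E] [NormedSpace ℝ E]
    {F : ℝ → E → E} {t0 t1 : ℝ} {v q w r : ℝ → E} (h : SolOn F t0 t1 v q)
    (hv : ∀ t ∈ Icc t0 t1, w t = v t) (hq : ∀ t ∈ Icc t0 t1, r t = q t) :
    SolOn F t0 t1 w r where
  cv := h.cv.congr hv
  cq := h.cq.congr hq
  dv t ht := by
    rw [hq t (Ioo_subset_Icc_self ht)]
    refine (h.dv t ht).congr_of_eventuallyEq ?_
    filter_upwards [Ioo_mem_nhds ht.1 ht.2] with s hs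
    rw [hv s (Ioo_subset_Icc_self hs)]
  dq t ht := by
    rw [hv t (Ioo_subset_Icc_self ht)]
    refine (h.dq t ht).congr_of_eventuallyEq ?_
    filter_upwards [Ioo_mem_nhds ht.1 ht.2] with s hs
    rw [hq s (Ioo_subset_Icc_self hs)]

theorem solOn_congrF {E : Type*} [NormedAddCommGroup E] [NormedSpace ℝ E]
    {F G : ℝ → E → E} {t0 t1 : ℝ} {v q : ℝ → E} (h : SolOn F t0 t1 v q)
    (hF : ∀ t ∈ Icc t0 t1, G t (v t) = F t (v t)) :
    SolOn G t0 t1 v q where
  cv := h.cv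
  cq := h.cq
  dv := h.dv
  dq t ht := by
    rw [hF t (Ioo_subset_Icc_self ht)]
    exact h.dq t ht

/-- `q` is antitone for nonnegative nonlinearities -/
theorem q_anti {F : ℝ → ℝ → ℝ} (hF : ∀ t x, 0 ≤ F t x) {T : ℝ} {v q : ℝ → ℝ}
    (h : SolOn F 0 T v q) : AntitoneOn q (Icc 0 T) := by
  apply antitoneOn_of_deriv_nonpos (convex_Icc 0 T) h.cq
  · intro t ht
    rw [interior_Icc] at ht
    exact (h.dq t ht).differentiableAt.differentiableWithinAt
  · intro t ht
    rw [interior_Icc] at ht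
    rw [(h.dq t ht).deriv]
    have := mul_nonneg ht.1.le (hF t (v t))
    simp only [smul_eq_mul]
    linarith

theorem cont_tv {F : ℝ → ℝ → ℝ} {T : ℝ} {v q : ℝ → ℝ}
    (h : SolOn F 0 T v q) : ContinuousOn (fun t => t * v t) (Icc 0 T) :=
  continuousOn_id.mul h.cv

theorem v_le (h3 : P1_zero) {F : ℝ → ℝ → ℝ} (hF : ∀ t x, 0 ≤ F t x) {T a : ℝ} (hT : 0 < T)
    {v q : ℝ → ℝ} (h : SolOn F 0 T v q) (ha : v 0 = a) :
    q 0 = a ∧ ∀ t ∈ Icc 0 T, v t ≤ a := by
  have hq0 : q 0 = a := by rw [← ha]; exact (h3 ℝ F T v q hT h).symm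
  refine ⟨hq0, fun t ht => ?_⟩
  have hanti := q_anti hF h
  have hg : AntitoneOn (fun t => t * v t - t * a) (Icc 0 T) := by
    apply antitoneOn_of_deriv_nonpos (convex_Icc 0 T)
    · exact (cont_tv h).sub (continuousOn_id.mul continuousOn_const)
    · intro t ht
      rw [interior_Icc] at ht
      have h1 : HasDerivAt (fun t => t * v t - t * a) (q t - 1 * a) t :=
        (h.dv t ht).sub ((hasDerivAt_id t).mul_const a)
      exact h1.differentiableAt.differentiableWithinAt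
    · intro t ht
      rw [interior_Icc] at ht
      have h1 : HasDerivAt (fun t => t * v t - t * a) (q t - 1 * a) t :=
        (h.dv t ht).sub ((hasDerivAt_id t).mul_const a)
      rw [h1.deriv]
      have := hanti (left_mem_Icc.mpr hT.le) (Ioo_subset_Icc_self ht) ht.1.le
      rw [hq0] at this
      linarith
  rcases eq_or_lt_of_le ht.1 with h0 | h0
  · rw [← h0, ha]
  · have := hg (left_mem_Icc.mpr hT.le) ht ht.1
    simp only [zero_mul, sub_zero] at this
    have h5 : t * v t ≤ t * a := by linarith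
    exact le_of_mul_le_mul_left h5 h0

theorem fp_nonneg (v : ℝ) : 0 ≤ fp v := by
  unfold fp
  have : 0 ≤ max v 0 := le_max_right _ _
  positivity

theorem pow_lip {M p r : ℝ} (hp : 0 ≤ p) (hr : 0 ≤ r) (hpM : p ≤ M) (hrM : r ≤ M) :
    |(p ^ 4 + p ^ 7) - (r ^ 4 + r ^ 7)| ≤ (4 * M ^ 3 + 7 * M ^ 6) * |p - r| := by
  have hM : 0 ≤ M := hp.trans hpM
  have e : (p ^ 4 + p ^ 7) - (r ^ 4 + r ^ 7) = ((p ^ 3 + p ^ 2 * r + p * r ^ 2 + r ^ 3) +
      (p ^ 6 + p ^ 5 * r + p ^ 4 * r ^ 2 + p ^ 3 * r ^ 3 + p ^ 2 * r ^ 4 + p * r ^ 5 + r ^ 6))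
      * (p - r) := by ring
  rw [e, abs_mul]
  apply mul_le_mul_of_nonneg_right _ (abs_nonneg _)
  rw [abs_of_nonneg (by positivity)]
  have key : ∀ i j : ℕ, p ^ i * r ^ j ≤ M ^ (i + j) := by
    intro i j
    rw [pow_add]
    exact mul_le_mul (pow_le_pow_left₀ hp hpM i) (pow_le_pow_left₀ hr hrM j) (by positivity)
      (by positivity)
  have k1 := key 3 0
  have k2 := key 2 1
  have k3 := key 1 2
  have k4 := key 0 3
  have k5 := key 6 0
  have k6 := key 5 1
  have k7 := key 4 2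
  have k8 := key 3 3
  have k9 := key 2 4
  have k10 := key 1 5
  have k11 := key 0 6
  norm_num at k1 k2 k3 k4 k5 k6 k7 k8 k9 k10 k11
  linarith

theorem max_lip (u w : ℝ) : |max u 0 - max w 0| ≤ |u - w| := by
  have := abs_max_sub_max_le_abs u w 0
  exact this

theorem fp_lip {M u w : ℝ} (hM : 0 ≤ M) (hu : u ≤ M) (hw : w ≤ M) :
    |fp u - fp w| ≤ (4 * M ^ 3 + 7 * M ^ 6) * |u - w| := by
  unfold fp
  have h1 := pow_lip (le_max_right u 0) (le_max_right w 0) (max_le hu hM) (max_le hw hM)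
  refine h1.trans ?_
  exact mul_le_mul_of_nonneg_left (max_lip u w) (by positivity)

theorem fp_cont : Continuous fp := by
  unfold fp
  fun_prop

theorem exist_on (h1 : P1_exists) (h3 : P1_zero) {a T : ℝ} (ha : 0 < a) (hT : 0 < T) :
    ∃ v q : ℝ → ℝ, SolOn (fun _ v => fp v) 0 T v q ∧ v 0 = a := by
  have hK : 0 ≤ 4 * a ^ 3 + 7 * a ^ 6 := by positivity
  obtain ⟨v, q, hs, hv, hq⟩ := h1 ℝ (fun _ v => fp (min v a)) ⟨_, hK⟩ 0 T a a le_rfl hT
    (by
      have : Continuous (fun p : ℝ × ℝ => fp (min p.2 a)) := by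
        exact fp_cont.comp (continuous_snd.min continuous_const)
      exact this)
    (fun _ => by
      apply LipschitzWith.of_dist_le_mul
      intro x y
      rw [Real.dist_eq, Real.dist_eq]
      refine (fp_lip ha.le (min_le_right x a) (min_le_right y a)).trans ?_
      have h5 : |min x a - min y a| ≤ |x - y| := by
        have := abs_min_sub_min_le_max x a y a
        rwa [sub_self, abs_zero, max_eq_left (abs_nonneg _)] at this
      exact mul_le_mul_of_nonneg_left h5 hK)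
    (fun _ => rfl)
  obtain ⟨-, hle⟩ := v_le h3 (fun _ x => fp_nonneg _) hT hs hv
  refine ⟨v, q, solOn_congrF hs (fun t ht => ?_), hv⟩
  show fp (v t) = fp (min (v t) a)
  rw [min_eq_left (hle t ht)]

theorem lipC (h2 : P1_stab) (h3 : P1_zero) {M T : ℝ} (hM : 0 < M) (hT : 0 < T) :
    ∃ C : ℝ, 0 < C ∧ ∀ (v q w r : ℝ → ℝ) (a b : ℝ), a ≤ M → b ≤ M →
      SolOn (fun _ v => fp v) 0 T v q → v 0 = a → SolOn (fun _ v => fp v) 0 T w r → w 0 = b →
      ∀ t ∈ Icc 0 T, |v t - w t| ≤ C * |a - b| ∧ |q t - r t| ≤ C * |a - b| := by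
  have hK : 0 ≤ 4 * M ^ 3 + 7 * M ^ 6 := by positivity
  obtain ⟨C, hC, hst⟩ := h2 (4 * M ^ 3 + 7 * M ^ 6) 0 T hK le_rfl hT
  refine ⟨C * 2, by positivity, fun v q w r a b haM hbM hv hv0 hw hw0 t ht => ?_⟩
  obtain ⟨hq0, hvle⟩ := v_le h3 (fun _ x => fp_nonneg _) hT hv hv0
  obtain ⟨hr0, hwle⟩ := v_le h3 (fun _ x => fp_nonneg _) hT hw hw0
  have h := hst ℝ (fun _ v => fp v) (fun _ v => fp v) v q w r 0 hv hw le_rfl (by
    intro s hs
    have := fp_lip hM.le ((hvle s hs).trans haM) ((hwle s hs).trans hbM)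
    simpa using this) t ht
  rw [hv0, hw0, hq0, hr0] at h
  have e : C * (‖a - b‖ + ‖a - b‖ + 0) = C * 2 * |a - b| := by
    rw [Real.norm_eq_abs]; ring
  rw [e] at h
  exact h

theorem uniq_on (h2 : P1_stab) (h3 : P1_zero) {a T : ℝ} (ha : 0 < a) (hT : 0 < T)
    {v q w r : ℝ → ℝ} (hv : SolOn (fun _ v => fp v) 0 T v q) (hv0 : v 0 = a)
    (hw : SolOn (fun _ v => fp v) 0 T w r) (hw0 : w 0 = a) :
    ∀ t ∈ Icc 0 T, v t = w t ∧ q t = r t := by
  obtain ⟨C, hC, h⟩ := lipC h2 h3 ha hT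
  intro t ht
  obtain ⟨e1, e2⟩ := h v q w r a a le_rfl le_rfl hv hv0 hw hw0 t ht
  rw [sub_self, abs_zero, mul_zero] at e1 e2
  exact ⟨sub_eq_zero.mp (abs_nonpos_iff.mp e1), sub_eq_zero.mp (abs_nonpos_iff.mp e2)⟩

theorem p_fam (h1 : P1_exists) (h2 : P1_stab) (h3 : P1_zero) : P2_fam := by
  have hex : ∀ a T : ℝ, ∃ v q : ℝ → ℝ, 0 < a → 0 < T →
      SolOn (fun _ v => fp v) 0 T v q ∧ v 0 = a := by
    intro a T
    by_cases h : 0 < a ∧ 0 < T
    · obtain ⟨v, q, h⟩ := exist_on h1 h3 h.1 h.2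
      exact ⟨v, q, fun _ _ => h⟩
    · exact ⟨0, 0, fun ha hT => absurd ⟨ha, hT⟩ h⟩
  choose vv qq hvq using hex
  have key : ∀ a, 0 < a → ∀ T, 0 < T → ∀ t ∈ Icc 0 T,
      vv a (t + 1) t = vv a T t ∧ qq a (t + 1) t = qq a T t := by
    intro a ha T hT t ht
    have ht1 : 0 < t + 1 := by linarith [ht.1]
    obtain ⟨s1, i1⟩ := hvq a (t + 1) ha ht1
    obtain ⟨s2, i2⟩ := hvq a T ha hT
    have hm : 0 < min (t + 1) T := lt_min ht1 hT
    exact uniq_on h2 h3 ha hm (solOn_mono s1 (min_le_left _ _)) i1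
      (solOn_mono s2 (min_le_right _ _)) i2 t ⟨ht.1, le_min (by linarith) ht.2⟩
  have hsol : ∀ a, 0 < a → ∀ T, 0 < T →
      SolOn (fun _ v => fp v) 0 T (fun t => vv a (t + 1) t) (fun t => qq a (t + 1) t) := by
    intro a ha T hT
    exact solOn_congr (hvq a T ha hT).1 (fun t ht => (key a ha T hT t ht).1)
      (fun t ht => (key a ha T hT t ht).2)
  have hv0 : ∀ a, 0 < a → vv a (0 + 1) 0 = a := by
    intro a ha
    exact (hvq a (0 + 1) ha (by norm_num)).2
  refine ⟨fun a t => vv a (t + 1) t, fun a t => qq a (t + 1) t, ?_⟩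
  refine ⟨hv0, ?_, hsol, ?_, ?_⟩
  · intro a ha
    exact (v_le h3 (fun _ x => fp_nonneg _) one_pos (hsol a ha 1 one_pos) (hv0 a ha)).1
  · intro M T hM hT
    obtain ⟨C, hC, h⟩ := lipC h2 h3 hM hT
    exact ⟨C, hC, fun a ha b hb t ht => h _ _ _ _ a b ha.2 hb.2 (hsol a ha.1 T hT) (hv0 a ha.1)
      (hsol b hb.1 T hT) (hv0 b hb.1) t ht⟩
  · intro a ha T hT v q hvq' hv t ht
    exact uniq_on h2 h3 ha hT hvq' hv (hsol a ha T hT) (hv0 a ha) t ht

theorem p_cont : P2_cont := by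
  intro V Q hF b hb T hT η hη
  obtain ⟨hT0, hVT, hVpos⟩ := hT
  have hQanti : ∀ S, 0 < S → AntitoneOn (Q b) (Icc 0 S) := fun S hS =>
    q_anti (fun _ x => fp_nonneg x) (hF.sol b hb S hS)
  have hVc : ∀ a, 0 < a → ∀ S, 0 < S → ContinuousOn (V a) (Icc 0 S) := fun a ha S hS =>
    (hF.sol a ha S hS).cv
  -- the slope at T is negative
  have hQT : Q b T < 0 := by
    by_contra hcon
    push Not at hcon
    have hmono : MonotoneOn (fun t => t * V b t) (Icc 0 T) := by
      apply monotoneOn_of_deriv_nonneg (convex_Icc 0 T) (cont_tv (hF.sol b hb T hT0))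
      · intro t ht
        rw [interior_Icc] at ht
        exact ((hF.sol b hb T hT0).dv t ht).differentiableAt.differentiableWithinAt
      · intro t ht
        rw [interior_Icc] at ht
        have : HasDerivAt (fun t => t * V b t) (Q b t) t := (hF.sol b hb T hT0).dv t ht
        rw [this.deriv]
        have := hQanti T hT0 (Ioo_subset_Icc_self ht) (right_mem_Icc.mpr hT0.le) ht.2.le
        linarith
    have h1 := hmono (show T / 2 ∈ Icc 0 T from ⟨by linarith, by linarith⟩)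
      (right_mem_Icc.mpr hT0.le) (by linarith)
    simp only [hVT, mul_zero] at h1
    have h2 := hVpos (T / 2) ⟨by linarith, by linarith⟩
    have h3 : 0 < T / 2 * V b (T / 2) := by positivity
    linarith
  set η1 := min (η / 2) (T / 2) with hη1
  have hη1pos : 0 < η1 := lt_min (by linarith) (by linarith)
  have hη1a : η1 ≤ η / 2 := min_le_left _ _
  have hη1b : η1 ≤ T / 2 := min_le_right _ _
  set S := T + η1 with hS
  have hS0 : 0 < S := by linarith
  have hVS : V b S < 0 := by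
    have hanti : StrictAntiOn (fun t => t * V b t) (Icc T S) := by
      apply strictAntiOn_of_deriv_neg (convex_Icc T S)
      · exact (cont_tv (hF.sol b hb S hS0)).mono (Icc_subset_Icc hT0.le le_rfl)
      · intro t ht
        rw [interior_Icc] at ht
        have : HasDerivAt (fun t => t * V b t) (Q b t) t :=
          (hF.sol b hb S hS0).dv t ⟨by linarith [ht.1], ht.2⟩
        rw [this.deriv]
        have := hQanti S hS0 (show T ∈ Icc 0 S from ⟨hT0.le, by linarith⟩)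
          (show t ∈ Icc 0 S from ⟨by linarith [ht.1], ht.2.le⟩) ht.1.le
        linarith
    have h1 := hanti (left_mem_Icc.mpr (by linarith : T ≤ S))
      (right_mem_Icc.mpr (by linarith : T ≤ S)) (by linarith)
    simp only [hVT, mul_zero] at h1
    by_contra hcon
    push Not at hcon
    have : 0 ≤ S * V b S := mul_nonneg hS0.le hcon
    linarith
  -- positive lower bound
  obtain ⟨t0, ht0, hmin⟩ := isCompact_Icc.exists_isMinOn
    (show (Icc (0:ℝ) (T - η1)).Nonempty from ⟨0, by simp; linarith⟩)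
    ((hVc b hb S hS0).mono (Icc_subset_Icc le_rfl (by linarith)))
  have hc0 : 0 < V b t0 := hVpos t0 ⟨ht0.1, by linarith [ht0.2]⟩
  set c := min (V b t0) (-V b S) with hc
  have hcpos : 0 < c := lt_min hc0 (by linarith)
  have hc1 : c ≤ V b t0 := min_le_left _ _
  have hc2 : c ≤ -V b S := min_le_right _ _
  obtain ⟨C, hC, hLip⟩ := hF.lip (b + 1) S (by linarith) hS0
  refine ⟨min (min 1 b) (c / C), lt_min (lt_min one_pos hb) (div_pos hcpos hC), fun a hab => ?_⟩
  have hab1 : |a - b| < 1 := lt_of_lt_of_le hab ((min_le_left _ _).trans (min_le_left _ _))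
  have hab2 : |a - b| < b := lt_of_lt_of_le hab ((min_le_left _ _).trans (min_le_right _ _))
  have hab3 : |a - b| < c / C := lt_of_lt_of_le hab (min_le_right _ _)
  have hab4 : C * |a - b| < c := by
    rw [lt_div_iff₀ hC] at hab3
    linarith
  have ha0 : 0 < a := by
    have := (abs_lt.mp hab2).1
    linarith
  have haM : a ∈ Ioc 0 (b + 1) := ⟨ha0, by have := (abs_lt.mp hab1).2; linarith⟩
  have hbM : b ∈ Ioc 0 (b + 1) := ⟨hb, by linarith⟩
  have hdist : ∀ t ∈ Icc 0 S, |V a t - V b t| < c := fun t ht =>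
    lt_of_le_of_lt (hLip a haM b hbM t ht).1 hab4
  have hVaS : V a S < 0 := by
    have := (abs_lt.mp (hdist S (right_mem_Icc.mpr hS0.le))).2
    linarith
  have hVapos : ∀ t ∈ Icc 0 (T - η1), 0 < V a t := by
    intro t ht
    have h1 := (abs_lt.mp (hdist t ⟨ht.1, by linarith [ht.2]⟩)).1
    have h2 := hmin ht
    simp only [Set.mem_ofPred_eq] at h2
    linarith
  refine ⟨ha0, ?_⟩
  have hVac := hVc a ha0 S hS0
  -- the zero set
  set Z := {t ∈ Icc 0 S | V a t = 0} with hZ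
  have hZcl : IsClosed Z := by
    have := hVac.preimage_isClosed_of_isClosed isClosed_Icc (isClosed_singleton (x := (0:ℝ)))
    exact this
  have hZne : Z.Nonempty := by
    have h1 : (0:ℝ) ∈ Icc (V a S) (V a 0) :=
      ⟨hVaS.le, (hVapos 0 ⟨le_rfl, by linarith⟩).le⟩
    obtain ⟨t, ht, h0⟩ := intermediate_value_Icc' hS0.le hVac h1
    exact ⟨t, ht, h0⟩
  have hZbd : BddBelow Z := ⟨0, fun t ht => ht.1.1⟩
  have hmem := hZcl.csInf_mem hZne hZbd
  set Ta := sInf Z with hTa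
  obtain ⟨⟨hTa0, hTaS⟩, hVTa⟩ := hmem
  have hgt : T - η1 < Ta := by
    by_contra hcon
    push Not at hcon
    have := hVapos Ta ⟨hTa0, hcon⟩
    linarith
  have hlt : Ta < S := by
    rcases eq_or_lt_of_le hTaS with h | h
    · rw [h] at hVTa; linarith
    · exact h
  refine ⟨Ta, ⟨by linarith, hVTa, fun t ht => ?_⟩, ?_⟩
  · by_contra hcon
    push Not at hcon
    have h1 : (0:ℝ) ∈ Icc (V a t) (V a 0) := ⟨hcon, (hVapos 0 ⟨le_rfl, by linarith⟩).le⟩
    obtain ⟨s, hs, h0⟩ := intermediate_value_Icc' ht.1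
      (hVac.mono (Icc_subset_Icc le_rfl (by linarith [ht.2]))) h1
    have h2 : s ∈ Z := ⟨⟨hs.1, by linarith [hs.2, ht.2]⟩, h0⟩
    have h3 := csInf_le hZbd h2
    linarith [hs.2, ht.2]
  · rw [abs_lt]
    constructor <;> linarith

end Pool.Agent.W2helper53.LN.P2
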