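import Pool.Agent.W2helper59.LN.Stm

set_option autoImplicit false

namespace Pool.Agent.W2helper53.LN.P7

open Set Pool.Agent.W2helper59.LN

/-- the function `x' - c y'` -/
noncomputable def G (c X Y z : ℝ) : ℝ := Y * (1 - 2 * c / 3) - X / 3 + c * (X ^ 4 + z * X ^ 7)

theorem unif (c1 c2 ξ ε z κ : ℝ) (h : ∀ c ∈ Icc c1 c2, |G c ξ ε z| < κ) :
    ∃ ρ > 0, ∀ c ∈ Icc c1 c2, ∀ X Y w : ℝ, |X - ξ| < ρ → |Y - ε| < ρ → |w - z| < ρ →
      |G c X Y w| < κ := by
  have hcont : Continuous (fun p : ℝ × (ℝ × ℝ × ℝ) => |G p.1 p.2.1 p.2.2.1 p.2.2.2|) := by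
    unfold G
    fun_prop
  have hopen : IsOpen {p : ℝ × (ℝ × ℝ × ℝ) | |G p.1 p.2.1 p.2.2.1 p.2.2.2| < κ} :=
    isOpen_lt hcont continuous_const
  have hsub : Icc c1 c2 ×ˢ ({(ξ, ε, z)} : Set (ℝ × ℝ × ℝ)) ⊆
      {p : ℝ × (ℝ × ℝ × ℝ) | |G p.1 p.2.1 p.2.2.1 p.2.2.2| < κ} := by
    rintro ⟨c, q⟩ ⟨hc, hq⟩
    simp only [mem_singleton_iff] at hq
    subst hq
    exact h c hc
  obtain ⟨u, v, hu, hv, hcu, hvq, huv⟩ := generalized_tube_lemma isCompact_Icc isCompact_singleton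
    hopen hsub
  have hmem : (ξ, ε, z) ∈ v := hvq rfl
  obtain ⟨ρ, hρ, hball⟩ := Metric.isOpen_iff.mp hv _ hmem
  refine ⟨ρ, hρ, fun c hc X Y w hX hY hw => ?_⟩
  have h1 : (X, Y, w) ∈ v := by
    apply hball
    simp only [Metric.mem_ball, Prod.dist_eq, Real.dist_eq]
    exact max_lt hX (max_lt hY hw)
  exact huv (⟨hcu hc, h1⟩ : (c, (X, Y, w)) ∈ u ×ˢ v)

theorem p : P7_local := by
  intro x y α B s0 ε xm c1 c2 κ hαB hε hxm hc1 hc12 hN hK hP hL hE hH b hb sb hsb
  obtain ⟨hs0b, hyb, hb1, hb2⟩ := hsb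
  have hbI : b ∈ Icc α B := ⟨hb.1.le, hb.2⟩
  have hPb := hP b hbI
  obtain ⟨hx0, hxxm, hyx⟩ := hb2 sb ⟨hs0b.le, le_rfl⟩
  set ξ := x b sb with hξ
  have hξI : ξ ∈ Icc ε xm := ⟨by rw [hyb] at hyx; exact hyx, hxxm.le⟩
  set z := Real.exp (-2 * sb) with hz
  have hzI : z ∈ Icc (0:ℝ) (Real.exp (-2 * s0)) := by
    refine ⟨(Real.exp_pos _).le, ?_⟩
    rw [hz]
    apply Real.exp_le_exp.mpr
    linarith
  obtain ⟨ρ, hρ, hG⟩ := unif c1 c2 ξ ε z κ (fun c hc => by
    have := hK c hc ξ hξI z hzI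
    unfold G
    exact this)
  -- derivative of y_b at sb
  have hd : HasDerivAt (y b) (2 / 3 * y b sb - (max (x b sb) 0) ^ 4
      - Real.exp (-2 * sb) * (max (x b sb) 0) ^ 7) sb := hPb.dy sb
  have hmax : max (x b sb) 0 = ξ := max_eq_left hx0.le
  have hpos : 0 < 2 / 3 * y b sb - (max (x b sb) 0) ^ 4
      - Real.exp (-2 * sb) * (max (x b sb) 0) ^ 7 := by
    rw [hmax, hyb]
    have := hN ξ hξI z hzI
    linarith
  -- y_b > ε right after sb
  have hcx : Continuous (x b) := continuous_iff_continuousAt.mpr fun s => (hPb.dx s).continuousAt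
  have hcy : Continuous (y b) := continuous_iff_continuousAt.mpr fun s => (hPb.dy s).continuousAt
  have hcz : Continuous (fun s : ℝ => Real.exp (-2 * s)) := by fun_prop
  have hev : ∀ᶠ s in nhdsWithin sb (Ioi sb), ε < y b s := by
    have h1 := (hasDerivAt_iff_tendsto_slope.mp hd).eventually (lt_mem_nhds hpos)
    have h2 : nhdsWithin sb (Ioi sb) ≤ nhdsWithin sb {sb}ᶜ :=
      nhdsWithin_mono _ (fun s hs => ne_of_gt hs)
    filter_upwards [h2 h1, self_mem_nhdsWithin] with s hs hs'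
    have hs'' : (0:ℝ) < s - sb := sub_pos.mpr hs'
    rw [slope_def_field, div_pos_iff_of_pos_right hs''] at hs
    rw [hyb] at hs
    linarith
  have hevx : ∀ᶠ s in nhds sb, |x b s - ξ| < ρ / 2 ∧ |y b s - ε| < ρ / 2 ∧
      |Real.exp (-2 * s) - z| < ρ / 2 := by
    have hρ2 : 0 < ρ / 2 := by linarith
    have e1 : ∀ᶠ s in nhds sb, |x b s - ξ| < ρ / 2 := by
      have := (Metric.continuousAt_iff.mp (hcx.continuousAt (x := sb))) (ρ / 2) hρ2
      obtain ⟨δ, hδ, h⟩ := this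
      filter_upwards [Metric.ball_mem_nhds sb hδ] with s hs
      have := h hs
      rwa [Real.dist_eq] at this
    have e2 : ∀ᶠ s in nhds sb, |y b s - ε| < ρ / 2 := by
      have := (Metric.continuousAt_iff.mp (hcy.continuousAt (x := sb))) (ρ / 2) hρ2
      obtain ⟨δ, hδ, h⟩ := this
      filter_upwards [Metric.ball_mem_nhds sb hδ] with s hs
      have := h hs
      rwa [Real.dist_eq, hyb] at this
    have e3 : ∀ᶠ s in nhds sb, |Real.exp (-2 * s) - z| < ρ / 2 := by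
      have := (Metric.continuousAt_iff.mp (hcz.continuousAt (x := sb))) (ρ / 2) hρ2
      obtain ⟨δ, hδ, h⟩ := this
      filter_upwards [Metric.ball_mem_nhds sb hδ] with s hs
      have := h hs
      rwa [Real.dist_eq] at this
    filter_upwards [e1, e2, e3] with s h1 h2 h3
    exact ⟨h1, h2, h3⟩
  obtain ⟨δ0, hδ0, hball⟩ := Metric.eventually_nhds_iff.mp hevx
  obtain ⟨s2, hs2, hs2y⟩ : ∃ s2, (sb < s2 ∧ s2 < sb + δ0) ∧ ε < y b s2 := by
    have h3 : ∀ᶠ s in nhdsWithin sb (Ioi sb), s < sb + δ0 :=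
      (Iio_mem_nhds (by linarith : sb < sb + δ0)) |> fun h => mem_nhdsWithin_of_mem_nhds h
    obtain ⟨s, hs⟩ := (hev.and (h3.and self_mem_nhdsWithin)).exists
    exact ⟨s, ⟨hs.2.2, hs.2.1⟩, hs.1⟩
  obtain ⟨C, hC, hLip⟩ := hL s2 (by linarith [hs2.1])
  set η := min (ρ / 2) (y b s2 - ε) / C with hη
  have hmin : 0 < min (ρ / 2) (y b s2 - ε) := lt_min (by linarith) (by linarith)
  have hηpos : 0 < η := div_pos hmin hC
  refine ⟨η, hηpos, fun a ha hab1 hab2 sa hsa => ?_⟩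
  have haI : a ∈ Icc α B := ⟨ha.1.le, ha.2⟩
  have hPa := hP a haI
  obtain ⟨hlt, hcone⟩ := hH a ha b hb hab2 sa sb hsa ⟨hs0b, hyb, hb1, hb2⟩
  refine ⟨hlt, ?_⟩
  obtain ⟨hs0a, hya, ha1, ha2⟩ := hsa
  have hCab : C * |a - b| < min (ρ / 2) (y b s2 - ε) := by
    have h1 : |a - b| < η := by
      rw [abs_lt]; constructor <;> linarith
    have h2 : C * |a - b| < C * η := mul_lt_mul_of_pos_left h1 hC
    have h3 : C * η = min (ρ / 2) (y b s2 - ε) := by
      rw [hη]; field_simp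
    linarith
  have hm1 := min_le_left (ρ / 2) (y b s2 - ε)
  have hm2 := min_le_right (ρ / 2) (y b s2 - ε)
  have hsa2 : sa < s2 := by
    by_contra hcon
    push Not at hcon
    have h1 := (hLip a haI b hbI s2 ⟨by linarith [hs2.1], le_rfl⟩).2
    have h2 : ε < y a s2 := by
      have := abs_lt.mp (lt_of_le_of_lt h1 (lt_of_lt_of_le hCab hm2))
      linarith [this.1]
    rcases eq_or_lt_of_le hcon with h | h
    · rw [← h] at hya; linarith
    · have := (ha1 s2 ⟨by linarith [hs2.1], h⟩).2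
      linarith
  have hcb := hcone sb ⟨hs0b.le, le_rfl⟩
  obtain ⟨hY, hX1, hX2⟩ := hcb
  set Y := y b sb - y a sb with hYd
  set X := x b sb - x a sb with hXd
  set c := X / Y with hcd
  have hcI : c ∈ Icc c1 c2 := by
    constructor
    · rw [hcd, le_div_iff₀ hY]; exact hX1
    · rw [hcd, div_le_iff₀ hY]; exact hX2
  have hcY : c * Y = X := by rw [hcd]; field_simp
  -- mean value inequality
  have hder : ∀ s ∈ Icc sb sa, HasDerivWithinAt (fun s => x a s - c * y a s)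
      (G c (x a s) (y a s) (Real.exp (-2 * s))) (Icc sb sa) s := by
    intro s hs
    have hxs : 0 < x a s := (ha2 s ⟨by linarith [hs.1], hs.2⟩).1
    have h1 := (hPa.dx s).sub ((hPa.dy s).const_mul c)
    rw [max_eq_left hxs.le] at h1
    have h2 := h1.hasDerivWithinAt (s := Icc sb sa)
    refine HasDerivWithinAt.congr_deriv (f := fun s => x a s - c * y a s) h2 ?_
    unfold G
    ring
  have hbound : ∀ s ∈ Icc sb sa, ‖G c (x a s) (y a s) (Real.exp (-2 * s))‖ ≤ κ := by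
    intro s hs
    have hsd : dist s sb < δ0 := by
      rw [Real.dist_eq, abs_lt]
      constructor <;> linarith [hs.1, hs.2, hs2.2]
    obtain ⟨b1, b2, b3⟩ := hball hsd
    obtain ⟨l1, l2⟩ := hLip a haI b hbI s ⟨by linarith [hs.1], by linarith [hs.2]⟩
    have hlt' : C * |a - b| < ρ / 2 := lt_of_lt_of_le hCab hm1
    refine (hG c hcI _ _ _ ?_ ?_ ?_).le
    · calc |x a s - ξ| = |(x a s - x b s) + (x b s - ξ)| := by ring_nf
        _ ≤ |x a s - x b s| + |x b s - ξ| := abs_add_le _ _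
        _ < ρ := by linarith
    · calc |y a s - ε| = |(y a s - y b s) + (y b s - ε)| := by ring_nf
        _ ≤ |y a s - y b s| + |y b s - ε| := abs_add_le _ _
        _ < ρ := by linarith
    · linarith
  have hmv := (convex_Icc sb sa).norm_image_sub_le_of_norm_hasDerivWithin_le hder hbound
    (left_mem_Icc.mpr hlt.le) (right_mem_Icc.mpr hlt.le)
  have e1 : x a sa - ξ = (x a sa - c * y a sa) - (x a sb - c * y a sb) := by
    have : c * Y = X := hcY
    rw [hYd, hXd, hyb] at this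
    rw [hya]
    have h4 : c * ε - c * y a sb = x b sb - x a sb := by linarith
    rw [← hξ] at h4
    linarith
  rw [e1]
  have e2 : ‖sa - sb‖ = sa - sb := by
    rw [Real.norm_eq_abs, abs_of_pos]; linarith
  rw [e2] at hmv
  exact hmv

end Pool.Agent.W2helper53.LN.P7
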